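import Pool.Agent.Helper74.RG.DefsG

/-!
# Block G7: free modules over finite `p`-groups along a chain
-/

set_option autoImplicit false
set_option linter.unusedSectionVars false
set_option linter.unusedSimpArgs false

namespace Pool.Agent.Helper20.RG

open Pool.Agent.Helper74.RG Module

section ring
variable {p : ℕ} [Fact p.Prime] {W : Type} [AddCommGroup W] [Module (ZMod p) W]

theorem geo_poly : (∑ l ∈ Finset.range p, (Polynomial.X : Polynomial (ZMod p)) ^ l) =
    (Polynomial.X - 1) ^ (p - 1) := by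
  have h1 : (Polynomial.X - 1 : Polynomial (ZMod p)) ≠ 0 := by
    rw [← Polynomial.C_1]
    exact Polynomial.X_sub_C_ne_zero 1
  apply mul_right_cancel₀ h1
  rw [geom_sum_mul, ← pow_succ, Nat.sub_add_cancel (Fact.out : p.Prime).one_le, sub_pow_char,
    one_pow]

theorem geo (x : Module.End (ZMod p) W) :
    ∑ l ∈ Finset.range p, x ^ l = (x - 1) ^ (p - 1) := by
  have h := congrArg (Polynomial.aeval x) (geo_poly (p := p))
  simpa using h

theorem frob (x : Module.End (ZMod p) W) : (x - 1) ^ p = x ^ p - 1 := by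
  have h : ((Polynomial.X - 1 : Polynomial (ZMod p)) ^ p) = Polynomial.X ^ p - 1 := by
    rw [sub_pow_char, one_pow]
  have h := congrArg (Polynomial.aeval x) h
  simpa using h

end ring

section dec
variable {p : ℕ} [Fact p.Prime] {Q : Type} [Group Q] [Fintype Q] {W : Type} [AddCommGroup W]
  [Module (ZMod p) W] (ρ : Q →* Module.End (ZMod p) W)

open scoped Classical in
/-- the norm operator of a subgroup. -/
noncomputable def nm (H : Subgroup Q) (z : W) : W :=
  ∑ x ∈ Finset.univ.filter (fun x => x ∈ H), ρ x z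

theorem nm_decomp {H' H : Subgroup Q} {c : Q} {r : ℕ}
    (h1 : ∀ l < r, ∀ a ∈ H', c ^ l * a ∈ H) (h2 : ∀ h ∈ H, ∃ l < r, (c ^ l)⁻¹ * h ∈ H')
    (h3 : ∀ l < r, ∀ l' < r, ∀ a ∈ H', ∀ a' ∈ H', c ^ l * a = c ^ l' * a' → l = l') (z : W) :
    nm ρ H z = ∑ l ∈ Finset.range r, (ρ c ^ l) (nm ρ H' z) := by
  classical
  unfold nm
  simp only [map_sum]
  rw [← Finset.sum_product', eq_comm]
  apply Finset.sum_bij (fun (x : ℕ × Q) _ => c ^ x.1 * x.2)
  · rintro ⟨l, a⟩ hx
    simp only [Finset.mem_product, Finset.mem_range, Finset.mem_filter, Finset.mem_univ,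
      true_and] at hx ⊢
    exact h1 l hx.1 a hx.2
  · rintro ⟨l, a⟩ hx ⟨l', a'⟩ hx' h
    simp only [Finset.mem_product, Finset.mem_range, Finset.mem_filter, Finset.mem_univ,
      true_and] at hx hx' h
    have hl := h3 l hx.1 l' hx'.1 a hx.2 a' hx'.2 h
    subst hl
    rw [mul_left_cancel h]
  · intro h hh
    simp only [Finset.mem_filter, Finset.mem_univ, true_and] at hh
    obtain ⟨l, hl, hl'⟩ := h2 h hh
    refine ⟨(l, (c ^ l)⁻¹ * h), ?_, ?_⟩
    · simp only [Finset.mem_product, Finset.mem_range, Finset.mem_filter, Finset.mem_univ,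
        true_and]
      exact ⟨hl, hl'⟩
    · simp
  · rintro ⟨l, a⟩ _
    simp only [map_mul, map_pow, Module.End.mul_apply]

theorem nm_fixed (H : Subgroup Q) (z : W) : nm ρ H z ∈ fixed ρ H := by
  classical
  intro g hg
  unfold nm
  rw [map_sum]
  apply Finset.sum_bij (fun x _ => g * x)
  · intro a ha
    simp only [Finset.mem_filter, Finset.mem_univ, true_and] at ha ⊢
    exact H.mul_mem hg ha
  · intro a _ b _ h
    exact mul_left_cancel h
  · intro b hb
    simp only [Finset.mem_filter, Finset.mem_univ, true_and] at hb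
    refine ⟨g⁻¹ * b, ?_, by simp⟩
    simp only [Finset.mem_filter, Finset.mem_univ, true_and]
    exact H.mul_mem (H.inv_mem hg) hb
  · intro a _
    rw [map_mul, Module.End.mul_apply]

theorem nm_eq_finsum (H : Subgroup Q) (z : W) : ∑ᶠ a : H, ρ (a : Q) z = nm ρ H z := by
  classical
  rw [finsum_eq_sum_of_fintype]
  unfold nm
  rw [Finset.sum_subtype (Finset.univ.filter (fun x => x ∈ H)) (p := fun x => x ∈ H)
    (by intro x; simp)]

end dec

/-- dimension of a space with a nilpotent operator of order `q` all of whose blocks are full. -/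
theorem finrank_of_full {k Z : Type} [Field k] [AddCommGroup Z] [Module k Z]
    [FiniteDimensional k Z] (D : Module.End k Z) (q : ℕ) (hq : 0 < q) (h0 : D ^ q = 0)
    (h1 : ∀ y, D y = 0 → ∃ m, (D ^ (q - 1)) m = y) :
    finrank k Z = q * finrank k (LinearMap.ker D) := by
  have key : ∀ j ≤ q, finrank k (LinearMap.ker (D ^ j)) = j * finrank k (LinearMap.ker D) := by
    intro j
    induction j with
    | zero =>
      intro _
      rw [pow_zero, zero_mul]
      have : LinearMap.ker (1 : Module.End k Z) = ⊥ := by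
        rw [LinearMap.ker_eq_bot']
        intro m hm
        exact hm
      rw [this, finrank_bot]
    | succ j ih =>
      intro hj
      let f : LinearMap.ker (D ^ (j + 1)) →ₗ[k] LinearMap.ker D :=
        LinearMap.restrict (D ^ j) (fun x hx => by
          rw [LinearMap.mem_ker] at hx ⊢
          rw [← Module.End.mul_apply, ← pow_succ']
          exact hx)
      have hf : Function.Surjective f := by
        rintro ⟨y, hy⟩
        rw [LinearMap.mem_ker] at hy
        obtain ⟨m, hm⟩ := h1 y hy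
        refine ⟨⟨(D ^ (q - 1 - j)) m, ?_⟩, ?_⟩
        · rw [LinearMap.mem_ker, ← Module.End.mul_apply, ← pow_add]
          have : j + 1 + (q - 1 - j) = q := by omega
          rw [this, h0]
          rfl
        · apply Subtype.ext
          change (D ^ j) ((D ^ (q - 1 - j)) m) = y
          rw [← Module.End.mul_apply, ← pow_add]
          have : j + (q - 1 - j) = q - 1 := by omega
          rw [this, hm]
      have h2 := LinearMap.finrank_range_add_finrank_ker f
      rw [LinearMap.range_eq_top.2 hf, finrank_top] at h2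
      have h3 : finrank k (LinearMap.ker f) = finrank k (LinearMap.ker (D ^ j)) := by
        apply LinearEquiv.finrank_eq
        exact
          { toFun := fun x => ⟨x.1.1, by
              have := x.2
              rw [LinearMap.mem_ker] at this ⊢
              exact congrArg Subtype.val this⟩
            map_add' := fun x y => rfl
            map_smul' := fun c x => rfl
            invFun := fun x => ⟨⟨x.1, by
              have := x.2
              rw [LinearMap.mem_ker] at this ⊢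
              rw [pow_succ', Module.End.mul_apply, this, map_zero]⟩, by
                rw [LinearMap.mem_ker]
                apply Subtype.ext
                exact x.2⟩
            left_inv := fun x => rfl
            right_inv := fun x => rfl }
      rw [h3, ih (by omega)] at h2
      rw [← h2]
      ring
  have := key q le_rfl
  rw [h0] at this
  rw [← this]
  have h4 : LinearMap.ker (0 : Module.End k Z) = ⊤ := LinearMap.ker_zero
  rw [h4, finrank_top]

section step
variable {p : ℕ} [Fact p.Prime] {Q : Type} [Group Q] [Fintype Q] {W : Type} [AddCommGroup W]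
  [Module (ZMod p) W] [FiniteDimensional (ZMod p) W] (ρ : Q →* Module.End (ZMod p) W)
  {U' U : Subgroup Q} (hle : U' ≤ U) (ψ : U →* Multiplicative (ZMod (p ^ 2)))
  (hs : Function.Surjective ψ)
  (hU : ∀ x : U, (x : Q) ∈ U' ↔ p ∣ (Multiplicative.toAdd (ψ x)).val)

/-- reduction to `ZMod p`. -/
noncomputable def red (p : ℕ) [Fact p.Prime] : ZMod (p ^ 2) →+* ZMod p :=
  ZMod.castHom (Dvd.intro_left (p ^ 1) (by ring)) (ZMod p)

omit [FiniteDimensional (ZMod p) W] in
theorem red_eq_zero (x : ZMod (p ^ 2)) : red p x = 0 ↔ p ∣ x.val := by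
  have : NeZero (p ^ 2) := ⟨pow_ne_zero _ (Fact.out : p.Prime).ne_zero⟩
  unfold red
  rw [ZMod.castHom_apply, ZMod.cast_eq_val, ZMod.natCast_eq_zero_iff]

/-- The data of a step in a usable form. -/
structure St (p : ℕ) [Fact p.Prime] {Q : Type} [Group Q] (B U' U : Subgroup Q) (c : Q) :
    Prop where
  d1 : ∀ l < p, ∀ a ∈ B, (c ^ p) ^ l * a ∈ U'
  d2 : ∀ h ∈ U', ∃ l < p, ((c ^ p) ^ l)⁻¹ * h ∈ B
  d3 : ∀ l < p, ∀ l' < p, ∀ a ∈ B, ∀ a' ∈ B, (c ^ p) ^ l * a = (c ^ p) ^ l' * a' → l = l'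
  e1 : ∀ l < p, ∀ a ∈ U', c ^ l * a ∈ U
  e2 : ∀ h ∈ U, ∃ l < p, (c ^ l)⁻¹ * h ∈ U'
  e3 : ∀ l < p, ∀ l' < p, ∀ a ∈ U', ∀ a' ∈ U', c ^ l * a = c ^ l' * a' → l = l'
  cB : ∀ b ∈ B, c⁻¹ * b * c ∈ B
  cU' : ∀ b ∈ U', c⁻¹ * b * c ∈ U'
  cp : c ^ p ∈ U'
  cU : c ∈ U
  le : U' ≤ U

include hle hs hU in
theorem exists_st : ∃ (B : Subgroup Q) (c : Q), St p B U' U c := by
  have hpr : p.Prime := Fact.out
  have : NeZero (p ^ 2) := ⟨pow_ne_zero _ hpr.ne_zero⟩
  set v : U → ZMod (p ^ 2) := fun x => Multiplicative.toAdd (ψ x) with hv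
  have vmul : ∀ x y, v (x * y) = v x + v y := fun x y => by
    simp only [hv, map_mul, toAdd_mul]
  have vinv : ∀ x, v x⁻¹ = - v x := fun x => by
    simp only [hv, map_inv, toAdd_inv]
  have vpow : ∀ x (n : ℕ), v (x ^ n) = n * v x := fun x n => by
    simp only [hv, map_pow, toAdd_pow, nsmul_eq_mul]
  obtain ⟨c, hc⟩ := hs (Multiplicative.ofAdd 1)
  have vc : v c = 1 := by simp only [hv, hc, toAdd_ofAdd]
  set B : Subgroup Q := ψ.ker.map U.subtype with hB
  have mB : ∀ x : U, (x : Q) ∈ B ↔ v x = 0 := by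
    intro x
    rw [hB, Subgroup.mem_map]
    constructor
    · rintro ⟨y, hy, hyx⟩
      have : y = x := Subtype.ext hyx
      subst this
      rw [MonoidHom.mem_ker] at hy
      simp only [hv, hy, toAdd_one]
    · intro h
      refine ⟨x, ?_, rfl⟩
      rw [MonoidHom.mem_ker]
      exact Multiplicative.toAdd.injective h
  have BU : ∀ x ∈ B, x ∈ U := by
    intro x hx
    rw [hB, Subgroup.mem_map] at hx
    obtain ⟨y, -, rfl⟩ := hx
    exact y.2
  have mU' : ∀ x : U, (x : Q) ∈ U' ↔ red p (v x) = 0 := by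
    intro x
    rw [red_eq_zero, hU]
  have pzero : ((p : ZMod p)) = 0 := ZMod.natCast_self p
  refine ⟨B, c, ?_, ?_, ?_, ?_, ?_, ?_, ?_, ?_, ?_, c.2, hle⟩
  · intro l _ a ha
    have h1 : ((c : Q) ^ p) ^ l * a = (((c ^ p) ^ l * ⟨a, BU a ha⟩ : U) : Q) := rfl
    have h2 : v ⟨a, BU a ha⟩ = 0 := (mB ⟨a, BU a ha⟩).1 ha
    rw [h1, mU', vmul, vpow, vpow, h2, vc]
    simp [pzero]
  · intro h hh
    have hh' := hle hh
    have h1 := (hU ⟨h, hh'⟩).1 hh
    change p ∣ (v ⟨h, hh'⟩).val at h1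
    obtain ⟨k, hk⟩ := h1
    have h2 := ZMod.val_lt (v ⟨h, hh'⟩)
    rw [hk, sq] at h2
    have hkp : k < p := Nat.lt_of_mul_lt_mul_left h2
    refine ⟨k, hkp, ?_⟩
    have h3 : (((c : Q) ^ p) ^ k)⁻¹ * h = (((((c ^ p) ^ k)⁻¹ * ⟨h, hh'⟩) : U) : Q) := rfl
    have h4 : v ⟨h, hh'⟩ = ((p * k : ℕ) : ZMod (p ^ 2)) := by
      rw [← hk, ZMod.natCast_zmod_val]
    rw [h3, mB, vmul, vinv, vpow, vpow, vc, h4]
    push_cast
    ring
  · intro l hl l' hl' a ha a' ha' h
    have h1 : ((c ^ p) ^ l * ⟨a, BU a ha⟩ : U) = (c ^ p) ^ l' * ⟨a', BU a' ha'⟩ :=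
      Subtype.ext h
    have h2 := congrArg v h1
    rw [vmul, vmul, vpow, vpow, vpow, vpow, vc, (mB ⟨a, BU a ha⟩).1 ha,
      (mB ⟨a', BU a' ha'⟩).1 ha'] at h2
    have h3 : ((l * p : ℕ) : ZMod (p ^ 2)) = ((l' * p : ℕ) : ZMod (p ^ 2)) := by
      push_cast
      simpa using h2
    rw [ZMod.natCast_eq_natCast_iff', Nat.mod_eq_of_lt, Nat.mod_eq_of_lt] at h3
    · exact Nat.eq_of_mul_eq_mul_right hpr.pos h3
    · rw [sq]; exact Nat.mul_lt_mul_of_pos_right hl' hpr.pos
    · rw [sq]; exact Nat.mul_lt_mul_of_pos_right hl hpr.pos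
  · intro l _ a ha
    exact U.mul_mem (U.pow_mem c.2 l) (hle ha)
  · intro h hh
    refine ⟨(v ⟨h, hh⟩).val % p, Nat.mod_lt _ hpr.pos, ?_⟩
    have h3 : ((c : Q) ^ ((v ⟨h, hh⟩).val % p))⁻¹ * h =
        ((((c ^ ((v ⟨h, hh⟩).val % p))⁻¹ * ⟨h, hh⟩) : U) : Q) := rfl
    rw [h3, mU', vmul, vinv, vpow, vc, map_add, map_neg, mul_one, map_natCast,
      ZMod.natCast_mod, neg_add_eq_zero]
    conv_rhs => rw [← ZMod.natCast_zmod_val (v ⟨h, hh⟩), map_natCast]
  · intro l hl l' hl' a ha a' ha' h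
    have h1 : (c ^ l * ⟨a, hle ha⟩ : U) = c ^ l' * ⟨a', hle ha'⟩ := Subtype.ext h
    have h2 := congrArg (fun x => red p (v x)) h1
    simp only [vmul, vpow, vc, map_add, (mU' ⟨a, hle ha⟩).1 ha, (mU' ⟨a', hle ha'⟩).1 ha',
      mul_one, add_zero, map_natCast] at h2
    rw [ZMod.natCast_eq_natCast_iff', Nat.mod_eq_of_lt hl, Nat.mod_eq_of_lt hl'] at h2
    exact h2
  · intro b hb
    have h1 : (c : Q)⁻¹ * b * c = ((c⁻¹ * ⟨b, BU b hb⟩ * c : U) : Q) := rfl
    rw [h1, mB, vmul, vmul, vinv, (mB ⟨b, BU b hb⟩).1 hb]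
    ring
  · intro b hb
    have h1 : (c : Q)⁻¹ * b * c = ((c⁻¹ * ⟨b, hle hb⟩ * c : U) : Q) := rfl
    rw [h1, mU', vmul, vmul, vinv, map_add, map_add, map_neg, (mU' ⟨b, hle hb⟩).1 hb]
    ring
  · have h1 : (c : Q) ^ p = ((c ^ p : U) : Q) := rfl
    rw [h1, mU', vpow, map_mul, map_natCast, pzero, zero_mul]

theorem fixed_mono {H H' : Subgroup Q} (h : H ≤ H') : fixed ρ H' ≤ fixed ρ H :=
  fun _ hw g hg => hw g (h hg)

variable {B : Subgroup Q} {c : Q}

theorem St.stab {ρ : Q →* Module.End (ZMod p) W} {H : Subgroup Q}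
    (h : ∀ b ∈ H, c⁻¹ * b * c ∈ H) {w : W} (hw : w ∈ fixed ρ H) :
    (ρ c - 1) w ∈ fixed ρ H := by
  intro g hg
  rw [LinearMap.sub_apply, Module.End.one_apply, map_sub, hw g hg, ← Module.End.mul_apply,
    ← map_mul]
  have h1 : g * c = c * (c⁻¹ * g * c) := by group
  rw [h1, map_mul, Module.End.mul_apply, hw _ (h g hg)]

theorem St.stab_pow {ρ : Q →* Module.End (ZMod p) W} {H : Subgroup Q}
    (h : ∀ b ∈ H, c⁻¹ * b * c ∈ H) {w : W} (hw : w ∈ fixed ρ H) (n : ℕ) :
    ((ρ c - 1) ^ n) w ∈ fixed ρ H := by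
  induction n with
  | zero => exact hw
  | succ n ih =>
    rw [pow_succ', Module.End.mul_apply]
    exact St.stab h ih

/-- The key point. -/
theorem St.key (S : St p B U' U c) (hN : ∀ w ∈ fixed ρ U', ∃ z, nm ρ U' z = w) {y : W}
    (hy : y ∈ fixed ρ U) : ∃ m ∈ fixed ρ U', ((ρ c - 1) ^ (p - 1)) m = y := by
  have hpr : p.Prime := Fact.out
  obtain ⟨z, hz⟩ := hN y (fixed_mono ρ S.le hy)
  rw [nm_decomp ρ S.d1 S.d2 S.d3, ← LinearMap.sum_apply, geo, map_pow, ← frob, ← pow_mul] at hz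
  set n := nm ρ B z with hn
  have hnB : n ∈ fixed ρ B := nm_fixed ρ B z
  set D := ρ c - 1 with hD
  have hDy : D y = 0 := by
    rw [hD, LinearMap.sub_apply, hy c S.cU, Module.End.one_apply, sub_self]
  obtain ⟨q, hq⟩ : ∃ q, p = q + 1 := ⟨p - 1, by have := hpr.pos; omega⟩
  have hq' : p - 1 = q := by omega
  rw [hq'] at hz ⊢
  refine ⟨(D ^ (q * q)) n, ?_, ?_⟩
  · have h1 : (D ^ (q * q)) n ∈ fixed ρ B := St.stab_pow S.cB hnB _
    have h2 : (D ^ p) ((D ^ (q * q)) n) = 0 := by
      rw [← Module.End.mul_apply, ← pow_add]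
      have : p + q * q = 1 + p * q := by rw [hq]; ring
      rw [this, pow_add, pow_one, Module.End.mul_apply, hz, hDy]
    rw [frob, LinearMap.sub_apply, Module.End.one_apply, sub_eq_zero] at h2
    intro u hu
    obtain ⟨l, hl, hl'⟩ := S.d2 u hu
    have h3 : u = (c ^ p) ^ l * (((c ^ p) ^ l)⁻¹ * u) := by group
    rw [h3, map_mul, Module.End.mul_apply, h1 _ hl', map_pow, map_pow]
    clear h3 hl hl'
    induction l with
    | zero => rfl
    | succ l ih => rw [pow_succ, Module.End.mul_apply, h2, ih]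
  · rw [← Module.End.mul_apply, ← pow_add]
    have : q + q * q = p * q := by rw [hq]; ring
    rw [this, hz]

theorem St.next (S : St p B U' U c) (hN : ∀ w ∈ fixed ρ U', ∃ z, nm ρ U' z = w) {y : W}
    (hy : y ∈ fixed ρ U) : ∃ z, nm ρ U z = y := by
  obtain ⟨m, hm, hmy⟩ := S.key ρ hN hy
  obtain ⟨z, hz⟩ := hN m hm
  refine ⟨z, ?_⟩
  rw [nm_decomp ρ S.e1 S.e2 S.e3, hz, ← LinearMap.sum_apply, geo, hmy]

theorem St.dim (S : St p B U' U c) (hN : ∀ w ∈ fixed ρ U', ∃ z, nm ρ U' z = w) :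
    finrank (ZMod p) (fixed ρ U') = p * finrank (ZMod p) (fixed ρ U) := by
  have hpr : p.Prime := Fact.out
  let D : Module.End (ZMod p) (fixed ρ U') :=
    LinearMap.restrict (ρ c - 1) (fun w hw => St.stab S.cU' hw)
  have hDn : ∀ (n : ℕ) (w : fixed ρ U'), (((D ^ n) w : fixed ρ U') : W) =
      ((ρ c - 1) ^ n) (w : W) := by
    intro n
    induction n with
    | zero => intro w; rfl
    | succ n ih =>
      intro w
      rw [pow_succ, Module.End.mul_apply, ih, pow_succ, Module.End.mul_apply]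
      rfl
  have hker : ∀ w : fixed ρ U', D w = 0 → (w : W) ∈ fixed ρ U := by
    intro w hw u hu
    have h1 : ρ c (w : W) = w := by
      have := congrArg Subtype.val hw
      change (ρ c - 1) (w : W) = 0 at this
      rwa [LinearMap.sub_apply, Module.End.one_apply, sub_eq_zero] at this
    obtain ⟨l, -, hl'⟩ := S.e2 u hu
    have h3 : u = c ^ l * ((c ^ l)⁻¹ * u) := by group
    rw [h3, map_mul, Module.End.mul_apply, w.2 _ hl', map_pow]
    clear h3 hl'
    induction l with
    | zero => rfl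
    | succ l ih => rw [pow_succ, Module.End.mul_apply, h1, ih]
  rw [finrank_of_full D p hpr.pos]
  · congr 1
    apply LinearEquiv.finrank_eq
    exact
      { toFun := fun x => ⟨x.1.1, hker x.1 x.2⟩
        map_add' := fun x y => rfl
        map_smul' := fun c x => rfl
        invFun := fun x => ⟨⟨x.1, fixed_mono ρ S.le x.2⟩, by
          rw [LinearMap.mem_ker]
          apply Subtype.ext
          change (ρ c - 1) (x.1 : W) = 0
          rw [LinearMap.sub_apply, Module.End.one_apply, x.2 c S.cU, sub_self]⟩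
        left_inv := fun x => rfl
        right_inv := fun x => rfl }
  · apply LinearMap.ext
    intro w
    apply Subtype.ext
    rw [hDn, frob, LinearMap.sub_apply, Module.End.one_apply, ← map_pow, w.2 _ S.cp, sub_self]
    rfl
  · intro y hy
    obtain ⟨m, hm, hmy⟩ := S.key ρ hN (hker y hy)
    exact ⟨⟨m, hm⟩, Subtype.ext (by rw [hDn]; exact hmy)⟩

theorem St.index (S : St p B U' U c) : U'.index = p * U.index := by
  classical
  have h1 : (Finset.univ.filter (fun x => x ∈ U)).card =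
      (Finset.range p ×ˢ Finset.univ.filter (fun x => x ∈ U')).card := by
    symm
    apply Finset.card_bij (fun (x : ℕ × Q) _ => c ^ x.1 * x.2)
    · rintro ⟨l, a⟩ hx
      simp only [Finset.mem_product, Finset.mem_range, Finset.mem_filter, Finset.mem_univ,
        true_and] at hx ⊢
      exact S.e1 l hx.1 a hx.2
    · rintro ⟨l, a⟩ hx ⟨l', a'⟩ hx' h
      simp only [Finset.mem_product, Finset.mem_range, Finset.mem_filter, Finset.mem_univ,
        true_and] at hx hx' h
      have hl := S.e3 l hx.1 l' hx'.1 a hx.2 a' hx'.2 h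
      subst hl
      rw [mul_left_cancel h]
    · intro h hh
      simp only [Finset.mem_filter, Finset.mem_univ, true_and] at hh
      obtain ⟨l, hl, hl'⟩ := S.e2 h hh
      refine ⟨(l, (c ^ l)⁻¹ * h), ?_, ?_⟩
      · simp only [Finset.mem_product, Finset.mem_range, Finset.mem_filter, Finset.mem_univ,
          true_and]
        exact ⟨hl, hl'⟩
      · simp
  rw [Finset.card_product, Finset.card_range] at h1
  have hc : ∀ H : Subgroup Q, (Finset.univ.filter (fun x => x ∈ H)).card = Nat.card H := by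
    intro H
    rw [Nat.card_eq_fintype_card, Fintype.card_subtype]
  rw [hc, hc] at h1
  have h2 := U.card_mul_index
  have h3 := U'.card_mul_index
  rw [h1] at h2
  have h4 : 0 < Nat.card U' := Nat.card_pos
  apply Nat.eq_of_mul_eq_mul_left h4
  rw [h3, ← h2]
  ring

end step

/-- G7: free modules over finite `p`-groups along a chain. -/
theorem chain_finrank {p : ℕ} [Fact p.Prime] {Q : Type} [Group Q] [Finite Q] {W : Type}
    [AddCommGroup W]
    [Module (ZMod p) W] [FiniteDimensional (ZMod p) W] (ρ : Q →* Module.End (ZMod p) W)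
    (n : ℕ) (U : ℕ → Subgroup Q) (hn : U n = ⊤)
    (hU : ∀ i < n, ∃ ψ : U (i + 1) →* Multiplicative (ZMod (p ^ 2)), Function.Surjective ψ ∧
      ∀ x : U (i + 1), (x : Q) ∈ U i ↔ p ∣ (Multiplicative.toAdd (ψ x)).val)
    (hle : ∀ i < n, U i ≤ U (i + 1))
    (h0 : ∀ w ∈ fixed ρ (U 0), ∃ z, ∑ᶠ a : U 0, ρ (a : Q) z = w) :
    finrank (ZMod p) (fixed ρ (U 0)) = (U 0).index * finrank (ZMod p) (fixed ρ ⊤) := by
  have := Fintype.ofFinite Q
  have key : ∀ i ≤ n, (∀ w ∈ fixed ρ (U i), ∃ z, nm ρ (U i) z = w) ∧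
      ∃ q, finrank (ZMod p) (fixed ρ (U 0)) = q * finrank (ZMod p) (fixed ρ (U i)) ∧
        (U 0).index = q * (U i).index := by
    intro i
    induction i with
    | zero =>
      intro _
      refine ⟨?_, 1, by rw [one_mul], by rw [one_mul]⟩
      intro w hw
      obtain ⟨z, hz⟩ := h0 w hw
      exact ⟨z, by rw [← hz, nm_eq_finsum]⟩
    | succ i ih =>
      intro hi
      obtain ⟨h1, q, hq1, hq2⟩ := ih (by omega)
      obtain ⟨ψ, hψ, hψ'⟩ := hU i (by omega)
      obtain ⟨B, c, S⟩ := exists_st (hle i (by omega)) ψ hψ hψ'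
      refine ⟨fun w hw => S.next ρ h1 hw, q * p, ?_, ?_⟩
      · rw [hq1, S.dim ρ h1, mul_assoc]
      · rw [hq2, S.index, mul_assoc]
  obtain ⟨-, q, hq1, hq2⟩ := key n le_rfl
  rw [hn] at hq1 hq2
  rw [Subgroup.index_top, mul_one] at hq2
  rw [hq1, hq2]

end Pool.Agent.Helper20.RG
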